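import Pool.Agent.H31.ST.Targets

/-! MP_0b97f5_mp, module CONV: convergents of an irrational number.  helper58 -/

open Set Filter Topology

noncomputable section

namespace H31.ST.H58

open H31.ST

theorem gauss_iter (h : T_DIG) {α : ℝ} (hα : α ∈ Ioo (0 : ℝ) 1) (hi : Irrational α) (n : ℕ) :
    gauss^[n] α ∈ Ioo (0 : ℝ) 1 ∧ Irrational (gauss^[n] α) := by
  induction n with
  | zero => exact ⟨hα, hi⟩
  | succ n ih =>
    rw [Function.iterate_succ_apply']
    obtain ⟨h1, h2, -, -⟩ := h.2.2 _ ih.1 ih.2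
    exact ⟨h1, h2⟩

theorem inv_eq {α : ℝ} (hα : α ∈ Ioo (0 : ℝ) 1) (n : ℕ) (hn : 0 < gauss^[n] α) :
    (gauss^[n] α)⁻¹ = dig α n + gauss^[n + 1] α := by
  rw [Function.iterate_succ_apply', dig, gauss, Int.fract,
    natCast_floor_eq_intCast_floor (inv_pos.2 hn).le]
  ring

theorem conv_aux (h : T_DIG) {α : ℝ} (hα : α ∈ Ioo (0 : ℝ) 1) (hi : Irrational α) (n : ℕ) :
    α * (qd (dig α) (n + 1) + gauss^[n] α * qd (dig α) n)
      = pd (dig α) (n + 1) + gauss^[n] α * pd (dig α) n := by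
  induction n with
  | zero => simp [qd, pd]
  | succ n ih =>
    have hx := (gauss_iter h hα hi n).1
    have e := inv_eq hα n hx.1
    have hx0 : gauss^[n] α ≠ 0 := hx.1.ne'
    simp only [qd, pd]
    push_cast
    set x := gauss^[n] α with hxd
    set y := gauss^[n + 1] α with hyd
    have h1 : x * (dig α n + y) = 1 := by rw [← e]; field_simp
    have h2 : x * (α * (dig α n * qd (dig α) (n + 1) + qd (dig α) n + y * qd (dig α) (n + 1)))
        = x * (dig α n * pd (dig α) (n + 1) + pd (dig α) n + y * pd (dig α) (n + 1)) := by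
      linear_combination ih + (α * qd (dig α) (n + 1) - pd (dig α) (n + 1)) * h1
    exact mul_left_cancel₀ hx0 h2

theorem det_aux (a : ℕ → ℕ) (n : ℕ) :
    (pd a (n + 1) : ℤ) * qd a n - pd a n * qd a (n + 1) = (-1) ^ (n + 1) := by
  induction n with
  | zero => simp [qd, pd]
  | succ n ih =>
    simp only [qd, pd]
    push_cast
    rw [pow_succ, ← ih]
    ring

theorem qd_pos {a : ℕ → ℕ} (ha : ∀ k, 1 ≤ a k) (n : ℕ) :
    0 < qd a (n + 1) ∧ n ≤ qd a (n + 1) ∧ qd a n ≤ qd a (n + 1) := by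
  induction n using Nat.strong_induction_on with
  | _ n ih =>
    match n with
    | 0 => simp [qd]
    | 1 => simp [qd]; exact ⟨ha 0, ha 0⟩
    | (n + 2) =>
      obtain ⟨h1, h2, h3⟩ := ih (n + 1) (by omega)
      obtain ⟨h4, h5, h6⟩ := ih n (by omega)
      have h7 := ha (n + 1)
      have h8 : qd a (n + 2 + 1) = a (n + 1) * qd a (n + 1 + 1) + qd a (n + 1) := rfl
      have h9 : qd a (n + 1 + 1) ≤ a (n + 1) * qd a (n + 1 + 1) := Nat.le_mul_of_pos_left _ h7
      refine ⟨by omega, by omega, ?_⟩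
      show qd a (n + 1 + 1) ≤ _
      omega

theorem conv (h : T_DIG) : T_CONV := by
  intro α hα hi n hn
  have ha : ∀ k, 1 ≤ dig α k := (h.2.2 α hα hi).2.2.1
  obtain ⟨m, rfl⟩ : ∃ m, n = m + 1 := ⟨n - 1, by omega⟩
  have hq := (qd_pos ha m).1
  have hq2 := qd_pos ha (m + 1)
  refine ⟨hq, ?_, ?_, hq2.2.2, hq2.2.1⟩
  · have h1 := det_aux (dig α) m
    rw [← Nat.isCoprime_iff_coprime]
    refine ⟨(-1) ^ (m + 1) * qd (dig α) m, - ((-1) ^ (m + 1) * pd (dig α) m), ?_⟩
    have h2 : ((-1 : ℤ) ^ (m + 1)) * (-1) ^ (m + 1) = 1 := by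
      rw [← mul_pow]; simp
    linear_combination (-1) ^ (m + 1) * h1 + h2
  · have h1 := conv_aux h hα hi (m + 1)
    have h2 := det_aux (dig α) (m + 1)
    have hx := (gauss_iter h hα hi (m + 1)).1
    set x := gauss^[m + 1] α with hxd
    have h3 : (pd (dig α) (m + 1 + 1) : ℝ) * qd (dig α) (m + 1)
        - pd (dig α) (m + 1) * qd (dig α) (m + 1 + 1) = (-1) ^ (m + 1 + 1) := by
      exact_mod_cast h2
    have hq' : (0 : ℝ) < qd (dig α) (m + 1) := by exact_mod_cast hq
    have hq2' : (0 : ℝ) < qd (dig α) (m + 1 + 1) := by exact_mod_cast hq2.1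
    have h4 : (α * qd (dig α) (m + 1) - pd (dig α) (m + 1))
        * (qd (dig α) (m + 1 + 1) + x * qd (dig α) (m + 1)) = (-1) ^ (m + 1 + 1) := by
      linear_combination (qd (dig α) (m + 1) : ℝ) * h1 + h3
    have h5 : 0 < (qd (dig α) (m + 1 + 1) + x * qd (dig α) (m + 1) : ℝ) := by
      have := mul_pos hx.1 hq'
      linarith
    have h6 : |α * qd (dig α) (m + 1) - pd (dig α) (m + 1)|
        * (qd (dig α) (m + 1 + 1) + x * qd (dig α) (m + 1)) = 1 := by
      rw [← abs_of_pos h5, ← abs_mul, h4, abs_pow, abs_neg, abs_one, one_pow]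
    rw [lt_div_iff₀ hq2']
    have h7 : 0 < |α * qd (dig α) (m + 1) - pd (dig α) (m + 1)| := by
      rcases (abs_nonneg (α * qd (dig α) (m + 1) - pd (dig α) (m + 1))).eq_or_lt with h8 | h8
      · rw [← h8] at h6; simp at h6
      · exact h8
    nlinarith [mul_pos h7 (mul_pos hx.1 hq')]

end H31.ST.H58
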