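import Pool.Agent.H31.ST.Targets

/-! MP_0b97f5_mp, module SPEC1: outside the trace set the operator is invertible.  helper58 -/

open Set Filter Topology Matrix

noncomputable section

namespace H31.ST.H58

open H31.ST

theorem continuous_Mm (lam : ℝ) (a : ℕ → ℕ) (n : ℕ) : Continuous (fun E => Mm lam a E n) := by
  induction n using Nat.strong_induction_on with
  | _ n ih =>
    match n with
    | 0 => exact continuous_const
    | 1 =>
      refine continuous_matrix ?_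
      intro i j
      fin_cases i <;> fin_cases j <;> simp [Mm] <;> fun_prop
    | (n + 2) => exact (ih n (by omega)).mul ((ih (n + 1) (by omega)).pow (a n))

theorem continuous_xt (lam : ℝ) (a : ℕ → ℕ) (n : ℕ) : Continuous (fun E => xt lam a n E) :=
  (continuous_Mm lam a n).matrix_trace

/-- near a point outside the trace set all traces are uniformly outside `[-2,2]` -/
theorem esc_near (hESC : T_ESC) {lam : ℝ} (hlam : 0 < lam) {a : ℕ → ℕ} (ha : ∀ k, 1 ≤ a k) {E : ℝ}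
    (hE : E ∉ SpecSet lam a) : ∃ (n : ℕ) (r : ℝ), 0 < r ∧ ∀ m, n ≤ m → ∀ E', |E' - E| < r →
      2 < |xt lam a m E'| := by
  simp only [SpecSet, mem_ofPred_eq, not_forall, not_or, not_le] at hE
  obtain ⟨n, h1, h2⟩ := hE
  have o1 : ∀ᶠ E' in 𝓝 E, 2 < |xt lam a n E'| :=
    (continuous_xt lam a n).abs.continuousAt.eventually (lt_mem_nhds h1)
  have o2 : ∀ᶠ E' in 𝓝 E, 2 < |xt lam a (n + 1) E'| :=
    (continuous_xt lam a (n + 1)).abs.continuousAt.eventually (lt_mem_nhds h2)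
  obtain ⟨r, hr, hr'⟩ := Metric.eventually_nhds_iff.1 (o1.and o2)
  refine ⟨n, r, hr, ?_⟩
  intro m hm E' hE'
  obtain ⟨h3, h4⟩ := hr' (y := E') (by rwa [Real.dist_eq])
  exact hESC lam hlam a ha n E' h3 h4 m hm

theorem sum_shift {q : ℕ} {f : ℤ → ℝ} (hf : ∀ j, f (j + q) = f j) (c : ℤ) :
    ∑ i ∈ Finset.range q, f ((i : ℤ) + c) = ∑ i ∈ Finset.range q, f i := by
  have step : ∀ c : ℤ, ∑ i ∈ Finset.range q, f ((i : ℤ) + (c + 1))
      = ∑ i ∈ Finset.range q, f ((i : ℤ) + c) := by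
    intro c
    have h1 := Finset.sum_range_succ (fun i : ℕ => f ((i : ℤ) + c)) q
    have h2 := Finset.sum_range_succ' (fun i : ℕ => f ((i : ℤ) + c)) q
    rw [h1] at h2
    have h3 : f ((q : ℤ) + c) = f (((0 : ℕ) : ℤ) + c) := by
      rw [add_comm (q : ℤ) c, hf]; simp
    rw [h3] at h2
    have h4 := add_right_cancel h2
    rw [h4]
    apply Finset.sum_congr rfl
    intro i _
    congr 1
    push_cast
    ring
  induction c using Int.induction_on with
  | zero => simp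
  | succ n ih => rw [step, ih]
  | pred n ih =>
    rw [← ih, ← step (-(n : ℤ) - 1)]
    apply Finset.sum_congr rfl
    intro i _
    congr 1
    ring

/-- comparison of the line with a cycle -/
theorem window (hCYC : T_CYC) (v u : ℤ → ℝ) (q L : ℕ) (E r : ℝ) (ψ : ℤ → ℂ) (k : ℤ)
    (hψ : ∀ j : ℤ, (L : ℤ) < |j| → ψ j = 0) (hq : 2 * L + 4 < q) (hv : ∀ j, v (j + q) = v j)
    (hT : ∀ E', |E' - E| < r → (Tr v E' q).trace ≠ 2) (hr : 0 < r)
    (huv : ∀ j : ℤ, |j| ≤ L → u j = v (j + k)) :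
    r ^ 2 * ∑ i ∈ Finset.range q, ‖ψ ((i : ℤ) - (L + 1))‖ ^ 2 ≤
      ∑ i ∈ Finset.range q, ‖ψ ((i : ℤ) - (L + 1) + 1) + ψ ((i : ℤ) - (L + 1) - 1)
        + (u ((i : ℤ) - (L + 1)) - E : ℂ) * ψ ((i : ℤ) - (L + 1))‖ ^ 2 := by
  have hq0 : (0 : ℤ) < q := by omega
  set bal : ℤ → ℤ := fun t => (t + (L + 1)) % q - (L + 1) with hbal
  set φ : ℤ → ℂ := fun j => ψ (bal (j - k)) with hφ
  have hper : ∀ j, φ (j + q) = φ j := by
    intro j
    simp only [hφ, hbal]
    congr 2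
    have : j + q - k + (L + 1) = (j - k + (L + 1)) + q := by ring
    rw [this, Int.add_emod_right]
  -- values on the window
  have hval : ∀ j : ℤ, -(L + 2 : ℤ) ≤ j → j ≤ q - (L + 1) → φ (j + k) = ψ j := by
    intro j hj1 hj2
    simp only [hφ, hbal, add_sub_cancel_right]
    rcases lt_or_ge j (-(L + 1 : ℤ)) with h | h
    · have hj : j = -(L + 2 : ℤ) := by omega
      have e1 : (j + (L + 1)) % (q : ℤ) = q - 1 := by
        rw [hj]
        have : (-(L + 2 : ℤ) + (L + 1)) = (q - 1 : ℤ) + q * (-1) := by ring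
        rw [this, Int.add_mul_emod_self_left, Int.emod_eq_of_lt (by omega) (by omega)]
      rw [e1, hψ _ (by rw [lt_abs]; omega), hψ _ (by rw [lt_abs]; omega)]
    · rcases lt_or_ge j (q - (L + 1 : ℤ)) with h' | h'
      · have e1 : (j + (L + 1)) % (q : ℤ) = j + (L + 1) :=
          Int.emod_eq_of_lt (by omega) (by omega)
        rw [e1]
        congr 1
        ring
      · have hj : j = q - (L + 1 : ℤ) := by omega
        have e1 : (j + (L + 1)) % (q : ℤ) = 0 := by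
          rw [hj, sub_add_cancel, Int.emod_self]
        rw [e1, hψ _ (by rw [lt_abs]; omega), hψ _ (by rw [lt_abs]; omega)]
  have h1 := hCYC v q E r (by omega) hv hT hr φ hper
  rw [← sum_shift (f := fun j => ‖φ j‖ ^ 2) (q := q) (fun j => by rw [hper]) (k - (L + 1)),
    ← sum_shift (f := fun j => ‖φ (j + 1) + φ (j - 1) + (v j - E : ℂ) * φ j‖ ^ 2) (q := q) ?_
      (k - (L + 1))] at h1
  · convert h1 using 1
    · congr 1
      apply Finset.sum_congr rfl
      intro i hi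
      rw [Finset.mem_range] at hi
      have e : (i : ℤ) + (k - (L + 1)) = ((i : ℤ) - (L + 1)) + k := by ring
      rw [e, hval _ (by omega) (by omega)]
    · apply Finset.sum_congr rfl
      intro i hi
      rw [Finset.mem_range] at hi
      have e : (i : ℤ) + (k - (L + 1)) = ((i : ℤ) - (L + 1)) + k := by ring
      have e1 : (i : ℤ) + (k - (L + 1)) + 1 = ((i : ℤ) - (L + 1) + 1) + k := by ring
      have e2 : (i : ℤ) + (k - (L + 1)) - 1 = ((i : ℤ) - (L + 1) - 1) + k := by ring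
      rw [e1, e2, e, hval _ (by omega) (by omega), hval _ (by omega) (by omega),
        hval _ (by omega) (by omega)]
      congr 3
      by_cases hj : |(i : ℤ) - (L + 1)| ≤ L
      · rw [huv _ hj]
      · rw [hψ _ (not_le.1 hj)]
        simp
  · intro j
    have e1 : j + q + 1 = (j + 1) + q := by ring
    have e2 : j + q - 1 = (j - 1) + q := by ring
    rw [e1, e2, hper, hper, hper, hv]

theorem pper_periodic (lam : ℝ) (p q : ℕ) (hq : 0 < q) (j : ℤ) :
    pper lam p q (j + q) = pper lam p q j := by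
  unfold pper
  have hq' : (q : ℤ) ≠ 0 := by exact_mod_cast hq.ne'
  have e1 : (j + q + 1) * (p : ℤ) = (j + 1) * p + q * p := by ring
  have e2 : (j + q) * (p : ℤ) = j * p + q * p := by ring
  rw [e1, e2, Int.add_mul_ediv_left _ _ hq', Int.add_mul_ediv_left _ _ hq']
  congr 2
  ring

theorem lower_fin (hCYC : T_CYC) (hWIN1 : T_WIN1) (hCONV : T_CONV) (hCHRIS : T_CHRIS)
    (hDIG : T_DIG) {lam : ℝ} {α : ℝ} (hα : α ∈ Ioo (0 : ℝ) 1) (hi : Irrational α)
    (ω : ℝ) {H : L2Z →L[ℂ] L2Z} (hH : IsSchr (pot lam α ω) H) {E r : ℝ} (hr : 0 < r) {n : ℕ}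
    (hn : ∀ m, n ≤ m → ∀ E', |E' - E| < r → 2 < |xt lam (dig α) m E'|)
    (ψ : L2Z) (L : ℕ) (hψ : ∀ j : ℤ, (L : ℤ) < |j| → ψ j = 0) :
    r * ‖ψ‖ ≤ ‖H ψ - (E : ℂ) • ψ‖ := by
  have ha : ∀ k, 1 ≤ dig α k := (hDIG.2.2 α hα hi).2.2.1
  obtain ⟨δ, hδ, hw⟩ := hWIN1 lam α ω hα hi L
  -- choice of the convergent
  obtain ⟨m, hm1, hm2, hm3, hm4⟩ : ∃ m : ℕ, 1 ≤ m ∧ n ≤ m ∧ 2 * L + 4 < qd (dig α) m ∧
      1 / δ < qd (dig α) m := by
    obtain ⟨N, hN⟩ := exists_nat_gt (1 / δ)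
    refine ⟨max (max (N + 1) (2 * L + 6)) (n + 2), by omega, by omega, ?_, ?_⟩
    · have h1 := (hCONV α hα hi (max (max (N + 1) (2 * L + 6)) (n + 2) - 1) (by omega)).2.2.2.2
      have e : max (max (N + 1) (2 * L + 6)) (n + 2) - 1 + 1
          = max (max (N + 1) (2 * L + 6)) (n + 2) := by omega
      rw [e] at h1
      omega
    · have h1 := (hCONV α hα hi (max (max (N + 1) (2 * L + 6)) (n + 2) - 1) (by omega)).2.2.2.2
      have e : max (max (N + 1) (2 * L + 6)) (n + 2) - 1 + 1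
          = max (max (N + 1) (2 * L + 6)) (n + 2) := by omega
      rw [e] at h1
      have h2 : N ≤ qd (dig α) (max (max (N + 1) (2 * L + 6)) (n + 2)) := by omega
      have h3 : (N : ℝ) ≤ qd (dig α) (max (max (N + 1) (2 * L + 6)) (n + 2)) := by exact_mod_cast h2
      linarith
  set q := qd (dig α) m with hqd
  set p := pd (dig α) m with hpd
  obtain ⟨c1, c2, c3, c4, c5⟩ := hCONV α hα hi m hm1
  have hq' : (0 : ℝ) < q := by exact_mod_cast c1
  have c4' : (q : ℝ) ≤ qd (dig α) (m + 1) := by exact_mod_cast c4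
  have hclose : |α - p / q| < δ := by
    have e : α - p / q = (α * q - p) / q := by field_simp
    rw [e, abs_div, abs_of_pos hq', div_lt_iff₀ hq']
    refine lt_of_lt_of_le c3 ?_
    have hq2 : (0 : ℝ) < qd (dig α) (m + 1) := lt_of_lt_of_le hq' c4'
    have h1 : 1 < δ * qd (dig α) (m + 1) := by
      rw [div_lt_iff₀ hδ] at hm4
      nlinarith
    have hq1 : (1 : ℝ) ≤ q := by exact_mod_cast c1
    rw [div_le_iff₀ hq2]
    nlinarith
  obtain ⟨k, hk⟩ := hw p q c1 c2 hclose hm4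
  have hT : ∀ E', |E' - E| < r → (Tr (pper lam p q) E' q).trace ≠ 2 := by
    intro E' hE'
    have h1 := hn m hm2 E' hE'
    rw [hCHRIS lam (dig α) ha E' m hm1] at h1
    intro h2
    change 2 < |(Tr (pper lam p q) E' q).trace| at h1
    rw [h2] at h1
    norm_num at h1
  have hmain := window hCYC (pper lam p q) (pot lam α ω) q L E r (ψ : ℤ → ℂ) k hψ hm3
    (pper_periodic lam p q c1) hT hr (by
      intro j hj
      exact hk j hj)
  -- from sums to norms
  set S : Finset ℤ := (Finset.range q).image (fun i : ℕ => (i : ℤ) - (L + 1)) with hS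
  have hinj : Set.InjOn (fun i : ℕ => (i : ℤ) - (L + 1)) (Finset.range q : Set ℕ) := by
    intro i _ j _ hij
    simp only at hij
    omega
  have h2 : (0 : ℝ) < (2 : ENNReal).toReal := by norm_num
  have hn1 : ‖ψ‖ ^ 2 = ∑ i ∈ Finset.range q, ‖ψ ((i : ℤ) - (L + 1))‖ ^ 2 := by
    have h3 := lp.norm_rpow_eq_tsum h2 ψ
    rw [tsum_eq_sum (s := S) ?_] at h3
    · rw [hS, Finset.sum_image hinj] at h3
      simpa using h3
    · intro j hj
      have : ψ j = 0 := by
        apply hψ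
        by_contra hcon
        apply hj
        rw [hS, Finset.mem_image]
        rw [not_lt, abs_le] at hcon
        refine ⟨(j + (L + 1)).toNat, ?_, ?_⟩
        · rw [Finset.mem_range]; omega
        · rw [Int.toNat_of_nonneg (by omega)]; ring
      rw [this]; simp
  have hn2 : ∑ i ∈ Finset.range q, ‖ψ ((i : ℤ) - (L + 1) + 1) + ψ ((i : ℤ) - (L + 1) - 1)
        + (pot lam α ω ((i : ℤ) - (L + 1)) - E : ℂ) * ψ ((i : ℤ) - (L + 1))‖ ^ 2
      ≤ ‖H ψ - (E : ℂ) • ψ‖ ^ 2 := by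
    have h3 := lp.sum_rpow_le_norm_rpow h2 (H ψ - (E : ℂ) • ψ) S
    rw [hS, Finset.sum_image hinj] at h3
    have h4 : ∀ i : ℕ, ‖(H ψ - (E : ℂ) • ψ : L2Z) ((i : ℤ) - (L + 1))‖ =
        ‖ψ ((i : ℤ) - (L + 1) + 1) + ψ ((i : ℤ) - (L + 1) - 1)
        + (pot lam α ω ((i : ℤ) - (L + 1)) - E : ℂ) * ψ ((i : ℤ) - (L + 1))‖ := by
      intro i
      rw [lp.coeFn_sub, Pi.sub_apply, hH ψ, lp.coeFn_smul, Pi.smul_apply, smul_eq_mul]
      congr 1
      ring
    simp only [h4] at h3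
    simpa using h3
  rw [← hn1] at hmain
  have h5 : (r * ‖ψ‖) ^ 2 ≤ ‖H ψ - (E : ℂ) • ψ‖ ^ 2 := by
    rw [mul_pow]; exact hmain.trans hn2
  exact (sq_le_sq₀ (by positivity) (norm_nonneg _)).1 h5

theorem lower_all {T : L2Z →L[ℂ] L2Z} {r : ℝ}
    (h : ∀ (ψ : L2Z) (L : ℕ), (∀ j : ℤ, (L : ℤ) < |j| → ψ j = 0) → r * ‖ψ‖ ≤ ‖T ψ‖) (ψ : L2Z) :
    r * ‖ψ‖ ≤ ‖T ψ‖ := by
  have h1 := lp.hasSum_single (E := fun _ : ℤ => ℂ) (p := 2) (by norm_num) ψ
  have h2 : Tendsto (fun s : Finset ℤ => r * ‖∑ i ∈ s, lp.single 2 i (ψ i)‖) atTop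
      (𝓝 (r * ‖ψ‖)) := h1.norm.const_mul r
  have h3 : Tendsto (fun s : Finset ℤ => ‖T (∑ i ∈ s, lp.single 2 i (ψ i))‖) atTop
      (𝓝 ‖T ψ‖) := ((T.continuous.tendsto ψ).comp h1).norm
  refine le_of_tendsto_of_tendsto' h2 h3 ?_
  intro s
  obtain ⟨L, hL⟩ : ∃ L : ℕ, ∀ i ∈ s, i.natAbs ≤ L :=
    ⟨s.sup Int.natAbs, fun i hi => Finset.le_sup hi⟩
  refine h _ L ?_
  intro j hj
  have hjs : j ∉ s := by
    intro hjs
    have := hL j hjs
    rw [Int.abs_eq_natAbs] at hj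
    omega
  rw [lp.coeFn_sum, Finset.sum_apply]
  apply Finset.sum_eq_zero
  intro i hi
  have : i ≠ j := by
    rintro rfl
    exact hjs hi
  rw [lp.coeFn_single, Pi.single_apply, if_neg this.symm]

theorem spec1 (hESC : T_ESC) (hCHRIS : T_CHRIS) (hDIG : T_DIG) (hCONV : T_CONV)
    (hWIN1 : T_WIN1) (hCYC : T_CYC) (hOPER : T_OPER) : T_SPEC1 := by
  intro lam hlam α hα hi ω H hH E hE
  have ha : ∀ k, 1 ≤ dig α k := (hDIG.2.2 α hα hi).2.2.1
  obtain ⟨n, r, hr, hn⟩ := esc_near hESC hlam ha hE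
  obtain ⟨H0, hH0, hsa, huniq⟩ := hOPER (pot lam α ω) ⟨lam, by
    intro n
    unfold pot
    split_ifs
    · rw [abs_of_pos hlam]
    · rw [abs_zero]; exact hlam.le⟩
  have hHeq := huniq H hH
  subst hHeq
  set T : L2Z →L[ℂ] L2Z := H - (E : ℂ) • (1 : L2Z →L[ℂ] L2Z) with hT
  have hTa : ∀ ψ, T ψ = H ψ - (E : ℂ) • ψ := fun ψ => rfl
  have hlow : ∀ ψ, r * ‖ψ‖ ≤ ‖T ψ‖ := by
    apply lower_all
    intro ψ L hψ
    rw [hTa]
    exact lower_fin hCYC hWIN1 hCONV hCHRIS hDIG hα hi ω hH hr hn ψ L hψ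
  have hTsa : IsSelfAdjoint T := by
    rw [hT]
    refine hsa.sub ?_
    rw [isSelfAdjoint_iff, star_smul, star_one]
    simp
  have hanti : AntilipschitzWith (Real.toNNReal r⁻¹) T := by
    apply AddMonoidHomClass.antilipschitz_of_bound
    intro ψ
    rw [Real.coe_toNNReal _ (by positivity)]
    have := hlow ψ
    rw [← div_le_iff₀' (by positivity)]
    rw [div_inv_eq_mul, mul_comm]
    exact this
  have hinj : Function.Injective T := hanti.injective
  have hclosed : IsClosed (Set.range T) := hanti.isClosed_range T.uniformContinuous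
  have hsurj : Function.Surjective T := by
    have h1 : T.rangeᗮ = ⊥ := by
      rw [ContinuousLinearMap.orthogonal_range]
      rw [← ContinuousLinearMap.star_eq_adjoint, hTsa.star_eq]
      exact LinearMap.ker_eq_bot.2 hinj
    have : CompleteSpace T.range := by
      have h2 : IsClosed (T.range : Set L2Z) := hclosed
      exact h2.completeSpace_coe
    have h3 : T.range = ⊤ := Submodule.orthogonal_eq_bot_iff.1 h1
    exact LinearMap.range_eq_top.1 h3
  have hunit : IsUnit T := ContinuousLinearMap.isUnit_iff_bijective.2 ⟨hinj, hsurj⟩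
  rw [spectrum.mem_iff, not_not]
  have : algebraMap ℂ (L2Z →L[ℂ] L2Z) E - H = -T := by
    rw [hT, Algebra.algebraMap_eq_smul_one]
    abel
  rw [this]
  exact hunit.neg

end H31.ST.H58
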