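import Pool.Agent.H31.ST.Targets

/-! MP_0b97f5_mp, module WIN1: every window appears in the approximants.  helper58 -/

open Set Filter Topology

noncomputable section

namespace H31.ST.H58

open H31.ST

/-- the potential as a difference of floors -/
theorem pot_eq (lam α ω : ℝ) (hα : α ∈ Ioo (0 : ℝ) 1) (n : ℤ) :
    pot lam α ω n = lam * ((⌊((n + 1 : ℤ) : ℝ) * α + ω⌋ - ⌊(n : ℝ) * α + ω⌋ : ℤ) : ℝ) := by
  unfold pot
  have h0 : ((n + 1 : ℤ) : ℝ) * α + ω = (⌊(n : ℝ) * α + ω⌋ : ℝ) + (Int.fract (n * α + ω) + α) := by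
    have := Int.floor_add_fract ((n : ℝ) * α + ω)
    push_cast
    linarith
  have h1 := Int.fract_nonneg ((n : ℝ) * α + ω)
  have h2 := Int.fract_lt_one ((n : ℝ) * α + ω)
  rw [h0, Int.floor_intCast_add]
  split_ifs with h
  · have : ⌊Int.fract ((n : ℝ) * α + ω) + α⌋ = 1 := by
      rw [Int.floor_eq_iff]
      push_cast
      constructor <;> [linarith; linarith [hα.2]]
    rw [this]
    push_cast
    ring
  · have : ⌊Int.fract ((n : ℝ) * α + ω) + α⌋ = 0 := by
      rw [Int.floor_eq_iff]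
      push_cast
      push Not at h
      constructor <;> [linarith [hα.1]; linarith]
    rw [this]
    push_cast
    ring

/-- near `t` (to the right if `t` is an integer) the floor is constant -/
theorem floor_near (t : ℝ) : ∃ η > 0, ∀ s : ℝ, |s - t| < η → (Int.fract t = 0 → t ≤ s) →
    ⌊s⌋ = ⌊t⌋ := by
  rcases eq_or_lt_of_le (Int.fract_nonneg t) with h | h
  · refine ⟨1, one_pos, ?_⟩
    intro s hs hts
    have h1 := hts h.symm
    have h2 := Int.floor_add_fract t
    rw [Int.floor_eq_iff]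
    rw [abs_lt] at hs
    constructor
    · linarith
    · linarith
  · have h3 := Int.fract_lt_one t
    refine ⟨min (Int.fract t) (1 - Int.fract t), lt_min h (by linarith), ?_⟩
    intro s hs _
    have h2 := Int.floor_add_fract t
    rw [abs_lt] at hs
    have h4 := min_le_left (Int.fract t) (1 - Int.fract t)
    have h5 := min_le_right (Int.fract t) (1 - Int.fract t)
    rw [Int.floor_eq_iff]
    constructor
    · linarith
    · linarith

theorem floor_near_all (α ω : ℝ) (L : ℕ) : ∃ η > 0, ∀ j : ℤ, |j| ≤ L → ∀ s : ℝ,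
    |s - (j * α + ω)| < η → (Int.fract ((j : ℝ) * α + ω) = 0 → (j : ℝ) * α + ω ≤ s) →
    ⌊s⌋ = ⌊(j : ℝ) * α + ω⌋ := by
  choose η hη hη' using fun j : ℤ => floor_near ((j : ℝ) * α + ω)
  have hne : (Finset.Icc (-(L : ℤ)) L).Nonempty := ⟨0, by simp⟩
  refine ⟨(Finset.Icc (-(L : ℤ)) L).inf' hne η, ?_, ?_⟩
  · rw [gt_iff_lt, Finset.lt_inf'_iff]
    intro j _
    exact hη j
  · intro j hj s hs hs'
    apply hη' j s _ hs'
    refine lt_of_lt_of_le hs ?_
    apply Finset.inf'_le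
    rw [Finset.mem_Icc]
    exact abs_le.1 hj

theorem win1 : T_WIN1 := by
  intro lam α ω hα hi L
  obtain ⟨η, hη, hfl⟩ := floor_near_all α ω (L + 1)
  -- the exceptional index
  obtain ⟨j₀, hj₀, hj₀'⟩ : ∃ j₀ : ℤ, |j₀| ≤ (L + 1 : ℕ) ∧ ∀ j : ℤ, |j| ≤ (L + 1 : ℕ) →
      Int.fract ((j : ℝ) * α + ω) = 0 → j = j₀ := by
    by_cases hex : ∃ j : ℤ, |j| ≤ (L + 1 : ℕ) ∧ Int.fract ((j : ℝ) * α + ω) = 0
    · obtain ⟨j, hj, hjf⟩ := hex
      refine ⟨j, hj, ?_⟩
      intro i _ hif
      by_contra hne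
      rw [Int.fract_eq_iff] at hjf hif
      obtain ⟨-, -, m, hm⟩ := hjf
      obtain ⟨-, -, m', hm'⟩ := hif
      have hne' : ((i : ℝ) - j) ≠ 0 := by
        have : (i : ℝ) ≠ j := by exact_mod_cast hne
        exact sub_ne_zero.2 this
      apply hi
      refine ⟨((m' - m : ℤ) : ℚ) / ((i - j : ℤ) : ℚ), ?_⟩
      push_cast
      rw [div_eq_iff hne']
      linarith
    · push Not at hex
      exact ⟨0, by simp; positivity, fun j hj hjf => absurd hjf (hex j hj)⟩
  refine ⟨η / (2 * L + 5), by positivity, ?_⟩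
  intro p q hq hcop hδ hδ'
  have hq' : (0 : ℝ) < q := by exact_mod_cast hq
  have hq1 : 1 / (q : ℝ) < η / (2 * L + 5) := by
    rw [div_lt_comm₀ hq' (by positivity)]
    exact hδ'
  set δ := η / (2 * (L : ℝ) + 5) with hδd
  have hδη : (2 * (L : ℝ) + 5) * δ = η := by
    rw [hδd]; field_simp
  set c : ℝ := ω + j₀ * (α - p / q) with hc
  set Y : ℤ := ⌈(q : ℝ) * c⌉ with hY
  set y : ℝ := (Y : ℝ) / q with hy
  have hcy : c ≤ y := by
    rw [hy, le_div_iff₀ hq', mul_comm]
    exact Int.le_ceil _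
  have hyc : y < c + 1 / q := by
    rw [hy, div_lt_iff₀ hq', add_mul, one_div, inv_mul_cancel₀ hq'.ne', mul_comm c]
    exact Int.ceil_lt_add_one _
  have hj₀r : |(j₀ : ℝ)| ≤ L + 1 := by
    have : ((|j₀| : ℤ) : ℝ) ≤ ((L + 1 : ℕ) : ℤ) := by exact_mod_cast hj₀
    push_cast at this
    exact this
  have hcω : |c - ω| ≤ (L + 1) * δ := by
    rw [hc, add_sub_cancel_left, abs_mul]
    exact mul_le_mul hj₀r hδ.le (abs_nonneg _) (by positivity)
  -- `k`
  obtain ⟨k, m, hk⟩ : ∃ k m : ℤ, k * p = Y + q * m := by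
    have h1 : IsCoprime (p : ℤ) (q : ℤ) := Nat.isCoprime_iff_coprime.2 hcop
    obtain ⟨u, v, huv⟩ := h1
    refine ⟨Y * u, -(Y * v), ?_⟩
    linear_combination Y * huv
  have key : ∀ j : ℤ, |j| ≤ (L + 1 : ℕ) → (j + k) * p / q = ⌊(j : ℝ) * α + ω⌋ + m := by
    intro j hj
    have h1 : (j + k) * (p : ℤ) = (j * p + Y) + q * m := by rw [add_mul, hk]; ring
    rw [h1, Int.add_mul_ediv_left _ _ (by exact_mod_cast hq.ne')]
    congr 1
    have hjr : |(j : ℝ)| ≤ L + 1 := by
      have : ((|j| : ℤ) : ℝ) ≤ ((L + 1 : ℕ) : ℤ) := by exact_mod_cast hj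
      push_cast at this
      exact this
    have h2 : (j * p + Y) / (q : ℤ) = ⌊(((j * p + Y : ℤ) : ℝ)) / (q : ℝ)⌋ := by
      rw [← Rat.floor_intCast_div_natCast, ← Rat.floor_cast (α := ℝ)]
      push_cast
      rfl
    rw [h2]
    have h3 : (((j * p + Y : ℤ) : ℝ)) / (q : ℝ) = j * (p / q) + y := by
      rw [hy]; push_cast; ring
    rw [h3]
    apply hfl j hj
    · have h4 : (j : ℝ) * (p / q) + y - (j * α + ω) = - (j * (α - p / q)) + (y - c) + (c - ω) := by
        ring
      rw [h4]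
      have h5 : |-((j : ℝ) * (α - p / q))| ≤ (L + 1) * δ := by
        rw [abs_neg, abs_mul]
        exact mul_le_mul hjr hδ.le (abs_nonneg _) (by positivity)
      have h6 : |y - c| < δ := by
        rw [abs_of_nonneg (by linarith)]
        linarith
      calc |-((j : ℝ) * (α - p / q)) + (y - c) + (c - ω)|
          ≤ |-((j : ℝ) * (α - p / q))| + |y - c| + |c - ω| := abs_add_three _ _ _
        _ < (L + 1) * δ + δ + (L + 1) * δ := by linarith
        _ ≤ η := by
          have : 0 < δ := by positivity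
          nlinarith
    · intro hfr
      obtain rfl := hj₀' j hj hfr
      have : (j : ℝ) * (p / q) + y - (j * α + ω) = y - c := by rw [hc]; ring
      linarith
  refine ⟨k, ?_⟩
  intro j hj
  have h1 : |j| ≤ ((L + 1 : ℕ) : ℤ) := by push_cast; linarith
  have h2 : |j + 1| ≤ ((L + 1 : ℕ) : ℤ) := by
    push_cast
    have := abs_add_le j 1
    simp at this
    linarith
  rw [pot_eq lam α ω hα, pper]
  have h3 := key j h1
  have h4 := key (j + 1) h2
  have h5 : j + k + 1 = j + 1 + k := by ring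
  rw [h5, h4, h3]
  congr 2
  ring

end H31.ST.H58
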